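import Pool.Agent.E8helper69.CB.Stm

/-!
# CB, piece FLD: the splitting field of `X^3 - X - 1`
-/

set_option autoImplicit false

namespace Pool.Agent.E8helper73.CB

open Pool.Agent.E8helper69.CB Polynomial

/-- the second step: a quadratic extension of the cubic field -/
theorem step {K : Type} [Field K] [NumberField K] (p : K) (hp : p ^ 3 = p + 1)
    (hf3 : Module.finrank ℚ K = 3)
    (hspan : ∀ u : K, ∃ c : Fin 3 → ℚ, u = (c 0 : K) + c 1 * p + c 2 * p ^ 2)
    (hlift : ∀ (L : Type) [Field L] [CharZero L] (x : L), x ^ 3 = x + 1 →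
      ∃ φ : K →+* L, φ p = x)
    (hg : ∀ x : K, x ^ 2 + p * x + p ^ 2 ≠ 1) : S_FLD := by
  classical
  set g : K[X] := X ^ 2 + C p * X + C (p ^ 2 - 1) with hgdef
  have gdeg : g.natDegree = 2 := by rw [hgdef]; compute_degree!
  have gm : g.Monic := by rw [hgdef]; monicity!
  have girr : Irreducible g := by
    refine Polynomial.irreducible_of_degree_le_three_of_not_isRoot (by rw [gdeg]; simp) ?_
    intro x hx
    have hx' : x ^ 2 + p * x + (p ^ 2 - 1) = 0 := by
      have := hx
      rw [IsRoot, hgdef] at this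
      simpa using this
    exact hg x (by linear_combination hx')
  have hfact : Fact (Irreducible g) := ⟨girr⟩
  have hev : ∀ (L : Type) [Field L] (ψ : K →+* L) (y : L),
      g.eval₂ ψ y = y ^ 2 + ψ p * y + ((ψ p) ^ 2 - 1) := by
    intro L _ ψ y
    rw [hgdef]
    rw [eval₂_add, eval₂_add, eval₂_mul, eval₂_pow, eval₂_X, eval₂_C, eval₂_C, map_sub, map_pow,
      map_one]
  let H := AdjoinRoot g
  let iK : K →+* H := AdjoinRoot.of g
  have hchar : CharZero H := charZero_of_injective_ringHom iK.injective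
  have hfin : Module.Finite K H := gm.finite_adjoinRoot
  have hNF : NumberField H :=
    { to_charZero := hchar
      to_finiteDimensional := FiniteDimensional.trans ℚ K H }
  let q : H := AdjoinRoot.root g
  have hq0 : q ^ 2 + iK p * q + ((iK p) ^ 2 - 1) = 0 := by
    rw [← hev H iK q]
    exact AdjoinRoot.eval₂_root g
  have hq : q ^ 2 + iK p * q + (iK p) ^ 2 = 1 := by linear_combination hq0
  have hp' : (iK p) ^ 3 = iK p + 1 := by rw [← map_pow, hp, map_add, map_one]
  have hq3 : q ^ 3 = q + 1 := by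
    linear_combination (q - iK p) * hq + hp'
  obtain ⟨φ, hφ⟩ := hlift H q hq3
  have hσ : g.eval₂ φ (-iK p - q) = 0 := by
    rw [hev H φ, hφ]
    linear_combination hq
  have hτ : g.eval₂ φ (iK p) = 0 := by
    rw [hev H φ, hφ]
    linear_combination hq
  let σ0 : H →+* H := AdjoinRoot.lift φ (-iK p - q) hσ
  let τ0 : H →+* H := AdjoinRoot.lift φ (iK p) hτ
  have hbij : ∀ s : H →+* H, Function.Bijective s := fun s => AlgHom.bijective s.toRatAlgHom
  let D : Fld H :=
    { p := iK p
      q := q
      σ := RingEquiv.ofBijective σ0 (hbij σ0)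
      τ := RingEquiv.ofBijective τ0 (hbij τ0)
      hp := hp'
      hq := hq
      σp := by
        show σ0 (iK p) = q
        rw [show σ0 (iK p) = φ p from AdjoinRoot.lift_of hσ, hφ]
      σq := by
        show σ0 q = -iK p - q
        exact AdjoinRoot.lift_root hσ
      τp := by
        show τ0 (iK p) = q
        rw [show τ0 (iK p) = φ p from AdjoinRoot.lift_of hτ, hφ]
      τq := by
        show τ0 q = iK p
        exact AdjoinRoot.lift_root hτ }
  refine ⟨H, inferInstance, hNF, D, ?_, ?_⟩
  · have h1 : Module.finrank K H = 2 := by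
      have := (AdjoinRoot.powerBasis' gm).finrank
      rw [this, AdjoinRoot.powerBasis'_dim, gdeg]
    have h2 := Module.finrank_mul_finrank ℚ K H
    rw [hf3, h1] at h2
    rw [← h2]
  · intro u
    obtain ⟨f, hf, hu⟩ := (AdjoinRoot.powerBasis' gm).exists_eq_aeval u
    rw [AdjoinRoot.powerBasis'_dim, gdeg] at hf
    rw [AdjoinRoot.powerBasis'_gen, Polynomial.aeval_eq_sum_range' hf] at hu
    simp only [Finset.sum_range_succ, Finset.sum_range_zero, pow_zero, pow_one, zero_add,
      Algebra.smul_def, mul_one] at hu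
    obtain ⟨c, hc⟩ := hspan (f.coeff 0)
    obtain ⟨d, hd⟩ := hspan (f.coeff 1)
    refine ⟨![c 0, c 1, c 2, d 0, d 1, d 2], ?_⟩
    have e0 : algebraMap K H (f.coeff 0) = (c 0 : H) + c 1 * iK p + c 2 * (iK p) ^ 2 := by
      show iK (f.coeff 0) = _
      rw [hc]
      simp only [map_add, map_mul, map_pow, map_ratCast]
    have e1 : algebraMap K H (f.coeff 1) = (d 0 : H) + d 1 * iK p + d 2 * (iK p) ^ 2 := by
      show iK (f.coeff 1) = _
      rw [hd]
      simp only [map_add, map_mul, map_pow, map_ratCast]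
    have hu' : u = algebraMap K H (f.coeff 0) + algebraMap K H (f.coeff 1) * q := hu
    rw [hu', e0, e1]
    show _ = ((c 0 : ℚ) : H) + (c 1 : ℚ) * iK p + (c 2 : ℚ) * (iK p) ^ 2 + (d 0 : ℚ) * q +
      (d 1 : ℚ) * (iK p * q) + (d 2 : ℚ) * ((iK p) ^ 2 * q)
    ring

/-- **FLD** -/
theorem t_FLD : S_FLD := by
  classical
  set f : ℚ[X] := X ^ 3 - X - 1 with hfdef
  have firr : Irreducible f := X_pow_sub_X_sub_one_irreducible_rat (by norm_num)
  have fdeg : f.natDegree = 3 := by rw [hfdef]; compute_degree!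
  have fm : f.Monic := by rw [hfdef]; monicity!
  have hfact : Fact (Irreducible f) := ⟨firr⟩
  let K := AdjoinRoot f
  have hchar : CharZero K := charZero_of_injective_ringHom (AdjoinRoot.of f).injective
  have hfin : Module.Finite ℚ K := fm.finite_adjoinRoot
  have hNF : NumberField K :=
    { to_charZero := hchar
      to_finiteDimensional := by
        convert hfin }
  let p : K := AdjoinRoot.root f
  have hp : p ^ 3 = p + 1 := by
    have h := AdjoinRoot.eval₂_root f
    rw [hfdef] at h
    simp only [eval₂_sub, eval₂_pow, eval₂_X, eval₂_one] at h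
    have h' : p ^ 3 - p - 1 = 0 := h
    linear_combination h'
  have hlift : ∀ (L : Type) [Field L] [CharZero L] (x : L), x ^ 3 = x + 1 →
      ∃ φ : K →+* L, φ p = x := by
    intro L _ _ x hx
    have h0 : f.eval₂ (algebraMap ℚ L) x = 0 := by
      rw [hfdef]
      simp only [eval₂_sub, eval₂_pow, eval₂_X, eval₂_one]
      linear_combination hx
    exact ⟨AdjoinRoot.lift (algebraMap ℚ L) x h0, AdjoinRoot.lift_root h0⟩
  refine step p hp ?_ ?_ hlift ?_
  · have := (AdjoinRoot.powerBasis' fm).finrank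
    rw [AdjoinRoot.powerBasis'_dim, fdeg] at this
    rw [← this]
  · intro u
    obtain ⟨h, hh, hu⟩ := (AdjoinRoot.powerBasis' fm).exists_eq_aeval u
    rw [AdjoinRoot.powerBasis'_dim, fdeg] at hh
    rw [AdjoinRoot.powerBasis'_gen, Polynomial.aeval_eq_sum_range' hh] at hu
    simp only [Finset.sum_range_succ, Finset.sum_range_zero, pow_zero, pow_one, zero_add,
      Algebra.smul_def, mul_one] at hu
    refine ⟨![h.coeff 0, h.coeff 1, h.coeff 2], ?_⟩
    rw [hu]
    show _ = ((h.coeff 0 : ℚ) : K) + (h.coeff 1 : ℚ) * p + (h.coeff 2 : ℚ) * p ^ 2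
    simp only [eq_ratCast]
    rfl
  · intro x hx
    -- a real root
    have hc : ContinuousOn (fun r : ℝ => r ^ 3 - r - 1) (Set.Icc (1.3 : ℝ) 1.4) := by
      fun_prop
    obtain ⟨r, hr, hr0⟩ := intermediate_value_Icc (by norm_num : (1.3 : ℝ) ≤ 1.4) hc
      (show (0 : ℝ) ∈ Set.Icc _ _ by constructor <;> norm_num)
    obtain ⟨φ, hφ⟩ := hlift ℝ r (by
      simp only at hr0
      linear_combination hr0)
    have h1 := congrArg φ hx
    rw [map_add, map_add, map_mul, map_pow, map_pow, map_one, hφ] at h1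
    have h2 : (1.3 : ℝ) ≤ r := hr.1
    nlinarith [sq_nonneg (2 * φ x + r)]

end Pool.Agent.E8helper73.CB
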